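import Pool.Agent.H17.SD.Targets

/-!
# Row PRE of the board sfg_modules (MP_70ba79_ag)
-/

namespace Pool.Agent.H80.SFG

open Pool.Agent.H17.SD

theorem smul_mem_int {k F : Type} [Field k] [Field F] [Algebra k F] (L : IntermediateField k F)
    (K : IntermediateField L F) (c : k) {x : F} (hx : x ∈ K) : c • x ∈ K := by
  have h : c • x = (algebraMap k L c) • x := by
    rw [Algebra.smul_def, Algebra.smul_def]
    rfl
  rw [h]
  exact K.smul_mem hx

theorem pf_PRE : T_PRE := by
  intro k F σ _ _ _ _ _ L hfd X hX
  classical
  haveI : CharZero L := charZero_of_injective_algebraMap (algebraMap k L).injective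
  haveI : Finite (IntermediateField L F) :=
    Field.finite_intermediateField_of_exists_primitive_element L F
      (Field.exists_primitive_element L F)
  haveI : Infinite k := CharZero.infinite k
  have key : ∀ T : Finset σ, ∃ θ ∈ Submodule.span k (Set.range X),
      ∀ s ∈ T, X s ∈ IntermediateField.adjoin L {θ} := by
    intro T
    induction T using Finset.induction_on with
    | empty => exact ⟨0, Submodule.zero_mem _, by simp⟩
    | insert s T _ ih =>
      obtain ⟨θ, hθ, hT⟩ := ih
      obtain ⟨c, c', hcc, he⟩ := Finite.exists_ne_map_eq_of_infinite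
        (fun c : k => IntermediateField.adjoin L {θ + c • X s})
      have he' : IntermediateField.adjoin L {θ + c • X s} =
        IntermediateField.adjoin L {θ + c' • X s} := he
      have h1 : θ + c • X s ∈ IntermediateField.adjoin L {θ + c • X s} :=
        IntermediateField.mem_adjoin_simple_self L _
      have h2 : θ + c' • X s ∈ IntermediateField.adjoin L {θ + c • X s} := by
        rw [he']
        exact IntermediateField.mem_adjoin_simple_self L _
      have h3 : (c - c') • X s ∈ IntermediateField.adjoin L {θ + c • X s} := by
        have h4 := sub_mem h1 h2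
        have h5 : θ + c • X s - (θ + c' • X s) = (c - c') • X s := by
          rw [sub_smul]; ring
        rwa [h5] at h4
      have h6 : X s ∈ IntermediateField.adjoin L {θ + c • X s} := by
        have h7 := smul_mem_int L _ (c - c')⁻¹ h3
        rwa [smul_smul, inv_mul_cancel₀ (sub_ne_zero.2 hcc), one_smul] at h7
      have h8 : θ ∈ IntermediateField.adjoin L {θ + c • X s} := by
        have h9 := sub_mem h1 (smul_mem_int L _ c h6)
        rwa [add_sub_cancel_right] at h9
      refine ⟨θ + c • X s, Submodule.add_mem _ hθ (Submodule.smul_mem _ _
        (Submodule.subset_span ⟨s, rfl⟩)), ?_⟩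
      intro s' hs'
      rcases Finset.mem_insert.1 hs' with rfl | hs'
      · exact h6
      · have h10 : IntermediateField.adjoin L {θ} ≤ IntermediateField.adjoin L {θ + c • X s} := by
          rw [IntermediateField.adjoin_simple_le_iff]
          exact h8
        exact h10 (hT s' hs')
  obtain ⟨θ, hθ, h⟩ := key Finset.univ
  refine ⟨θ, hθ, ?_⟩
  rw [eq_top_iff, ← hX, IntermediateField.adjoin_le_iff]
  rintro _ ⟨s, rfl⟩
  exact h s (Finset.mem_univ s)

end Pool.Agent.H80.SFG
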